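import Mathlib

set_option autoImplicit false

/-!
# Definitions for the canonical edge-ordering function `T(n)`
-/

namespace Pool.Agent.Helper25.CanonicalEdgeOrder

/-- The edges of the complete graph `K_N` on the vertex set `Fin N`: the unordered pairs of
distinct vertices. -/
abbrev Edge (N : ℕ) : Type := {e : Sym2 (Fin N) // ¬ e.IsDiag}

/-- The image `{φ i, φ j}` of the edge `{i, j}` (`i < j`) of `K_n` under an injection `φ` of the
vertices of `K_n` into the vertices of `K_N`. -/
def edge {n N : ℕ} (φ : Fin n ↪ Fin N) {i j : Fin n} (h : i < j) : Edge N :=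
  ⟨s(φ i, φ j), fun h' => h.ne (φ.injective (Sym2.mk_isDiag_iff.1 h'))⟩

/-- The lexicographic ordering of the edges of `K_n`: `{i, j}` with `i < j` precedes `{k, l}` with
`k < l` iff `i < k`, or `i = k` and `j < l`. -/
def LexOrder {n : ℕ} (i j k l : Fin n) : Prop := i < k ∨ (i = k ∧ j < l)

/-- The max-lexicographic ordering of the edges of `K_n`: `{i, j}` with `i < j` precedes `{k, l}`
with `k < l` iff `i < k`, or `i = k` and `j > l`. -/
def MaxLexOrder {n : ℕ} (i j k l : Fin n) : Prop := i < k ∨ (i = k ∧ l < j)

/-- The copy of `K_n` in `K_N` given by `φ`, ordered by the edge-ordering `r` of `K_N`, is ordered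
according to `R` (where `R i j k l` says that `{i, j}` precedes `{k, l}`). -/
def OrderedBy {n N : ℕ} (r : LinearOrder (Edge N)) (φ : Fin n ↪ Fin N)
    (R : Fin n → Fin n → Fin n → Fin n → Prop) : Prop :=
  ∀ (i j k l : Fin n) (hij : i < j) (hkl : k < l), r.lt (edge φ hij) (edge φ hkl) ↔ R i j k l

/-- The edge-ordering `r` of `K_N` contains a copy of `K_n` whose induced edge-ordering is one of
the four canonical ones (lexicographic, max-lexicographic, and the inverses of these); the vertices
of the copy are listed as `φ 0, …, φ (n-1)` in the order given by the bijection `f` in the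
definition of the canonical orderings. -/
def HasCanonicalCopy {N : ℕ} (r : LinearOrder (Edge N)) (n : ℕ) : Prop :=
  ∃ φ : Fin n ↪ Fin N,
    OrderedBy r φ (fun i j k l => LexOrder i j k l) ∨ OrderedBy r φ (fun i j k l => MaxLexOrder i j k l) ∨
    OrderedBy r φ (fun i j k l => LexOrder k l i j) ∨ OrderedBy r φ (fun i j k l => MaxLexOrder k l i j)

/-- `T n` is the least positive integer `N` such that every edge-ordering of `K_N` contains a
canonically ordered copy of `K_n`. -/
noncomputable def T (n : ℕ) : ℕ :=
  sInf {N : ℕ | 0 < N ∧ ∀ r : LinearOrder (Edge N), HasCanonicalCopy r n}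

end Pool.Agent.Helper25.CanonicalEdgeOrder
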