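import Mathlib

set_option autoImplicit false

namespace Pool.Agent.Helper25.EdgeOrd

variable {V : Type} [DecidableEq V]

/-- End-homogeneous sequences of vertices. -/
def EH (w : V → V → ℤ) : List V → List V → V → Prop
  | _, [], _ => True
  | A, v :: Q, z =>
    (∀ x ∈ Q, (∀ a ∈ A, ∀ c ∈ v :: A, (w a v < w c x ↔ w a v < w c z)) ∧
      (∀ a ∈ A, (w a x < w v x ↔ w a z < w v z))) ∧ EH w (v :: A) Q z

/-- The colour of `x` with respect to the chosen vertices `A` and the new vertex `v`. -/
noncomputable def colour (w : V → V → ℤ) (A : List V) (v : V) (x : V) :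
    (Fin A.length × Fin (v :: A).length → Bool) × (Fin A.length → Bool) :=
  (fun p => decide (w (A.get p.1) v < w ((v :: A).get p.2) x),
   fun i => decide (w (A.get i) x < w v x))

/-- The number of vertices needed. -/
def bd : ℕ → ℕ → ℕ
  | _, 0 => 1
  | a, m + 1 => 1 + 2 ^ (a * (a + 1) + a) * bd (a + 1) m

theorem bd_pos (a m : ℕ) : 1 ≤ bd a m := by
  cases m with
  | zero => simp [bd]
  | succ m => simp [bd]

theorem bd_le (m : ℕ) : ∀ a, bd a m ≤ 2 ^ (m * (a + m) ^ 2) := by
  induction m with
  | zero => intro a; simp [bd]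
  | succ m ih =>
    intro a
    have h1 := ih (a + 1)
    have h0 := bd_pos (a + 1) m
    calc bd a (m + 1) = 1 + 2 ^ (a * (a + 1) + a) * bd (a + 1) m := rfl
      _ ≤ 2 ^ (a * (a + 1) + a) * bd (a + 1) m + 2 ^ (a * (a + 1) + a) * bd (a + 1) m := by
          have : 1 ≤ 2 ^ (a * (a + 1) + a) * bd (a + 1) m :=
            Nat.one_le_iff_ne_zero.2 (by positivity)
          omega
      _ = 2 ^ (a * (a + 1) + a + 1) * bd (a + 1) m := by ring
      _ ≤ 2 ^ (a * (a + 1) + a + 1) * 2 ^ (m * (a + 1 + m) ^ 2) := Nat.mul_le_mul_left _ h1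
      _ = 2 ^ ((a + 1) ^ 2 + m * (a + 1 + m) ^ 2) := by rw [← pow_add]; ring_nf
      _ ≤ 2 ^ ((m + 1) * (a + (m + 1)) ^ 2) := by
          apply Nat.pow_le_pow_right (by norm_num)
          have : (a + 1) ^ 2 ≤ (a + (m + 1)) ^ 2 := Nat.pow_le_pow_left (by omega) 2
          nlinarith [this]

theorem exists_EH (w : V → V → ℤ) (m : ℕ) : ∀ (A : List V) (R : Finset V),
    bd A.length m ≤ R.card → ∃ Q : List V, Q.length = m ∧ ∃ z ∈ R, (∀ x ∈ Q, x ∈ R) ∧
      (z :: Q).Nodup ∧ EH w A Q z := by
  induction m with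
  | zero =>
    intro A R hR
    simp only [bd] at hR
    obtain ⟨z, hz⟩ := Finset.card_pos.1 (show 0 < R.card by omega)
    exact ⟨[], rfl, z, hz, by simp, by simp, trivial⟩
  | succ m ih =>
    intro A R hR
    have hR' : 1 + 2 ^ (A.length * (A.length + 1) + A.length) * bd (A.length + 1) m ≤ R.card := hR
    have h0 := bd_pos (A.length + 1) m
    obtain ⟨v, hv⟩ := Finset.card_pos.1 (show 0 < R.card by omega)
    have hcard : (R.erase v).card = R.card - 1 := Finset.card_erase_of_mem hv
    have hcol : Fintype.card ((Fin A.length × Fin (v :: A).length → Bool) × (Fin A.length → Bool))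
        = 2 ^ (A.length * (A.length + 1) + A.length) := by
      simp [Fintype.card_prod, pow_add]
    obtain ⟨col, -, hcol2⟩ := Finset.exists_le_card_fiber_of_mul_le_card_of_maps_to
      (s := R.erase v)
      (t := (Finset.univ : Finset ((Fin A.length × Fin (v :: A).length → Bool) ×
        (Fin A.length → Bool))))
      (f := colour w A v) (n := bd (A.length + 1) m)
      (fun _ _ => Finset.mem_univ _) Finset.univ_nonempty
      (by rw [Finset.card_univ, hcol, hcard]; omega)
    obtain ⟨Q, hQl, z, hz, hQR, hnd, hEH⟩ := ih (v :: A) _ (by simpa using hcol2)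
    have hzm := Finset.mem_filter.1 hz
    have hz1 := Finset.mem_erase.1 hzm.1
    refine ⟨v :: Q, by simp [hQl], z, hz1.2, ?_, ?_, ?_, hEH⟩
    · intro x hx
      rcases List.mem_cons.1 hx with rfl | hx
      · exact hv
      · exact (Finset.mem_erase.1 (Finset.mem_filter.1 (hQR x hx)).1).2
    · have hvQ : v ∉ Q := by
        intro h
        exact (Finset.mem_erase.1 (Finset.mem_filter.1 (hQR v h)).1).1 rfl
      have hnd' := List.nodup_cons.1 hnd
      rw [List.nodup_cons, List.nodup_cons]
      refine ⟨?_, hvQ, hnd'.2⟩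
      intro h
      rcases List.mem_cons.1 h with h | h
      · exact hz1.1 h
      · exact hnd'.1 h
    · intro x hx
      have hxm := Finset.mem_filter.1 (hQR x hx)
      have hcx : colour w A v x = colour w A v z := by rw [hxm.2, hzm.2]
      constructor
      · intro a ha c hc
        obtain ⟨i, rfl⟩ := List.get_of_mem ha
        obtain ⟨j, rfl⟩ := List.get_of_mem hc
        have := congrFun (congrArg Prod.fst hcx) (i, j)
        simpa [colour] using this
      · intro a ha
        obtain ⟨i, rfl⟩ := List.get_of_mem ha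
        have := congrFun (congrArg Prod.snd hcx) i
        simpa [colour] using this

omit [DecidableEq V] in
theorem EH.getD {w : V → V → ℤ} (Q : List V) : ∀ (A : List V) (z : V), EH w A Q z →
    ∀ k l : ℕ, k < l → l < Q.length →
      (∀ a c : V, (a ∈ A ∨ ∃ i < k, a = Q.getD i z) → (c ∈ A ∨ ∃ j ≤ k, c = Q.getD j z) →
        (w a (Q.getD k z) < w c (Q.getD l z) ↔ w a (Q.getD k z) < w c z)) ∧
      (∀ a : V, (a ∈ A ∨ ∃ i < k, a = Q.getD i z) →
        (w a (Q.getD l z) < w (Q.getD k z) (Q.getD l z) ↔ w a z < w (Q.getD k z) z)) := by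
  induction Q with
  | nil => intro A z _ k l _ hl; simp at hl
  | cons v Q ih =>
    intro A z hEH k l hkl hl
    obtain ⟨l, rfl⟩ : ∃ l', l = l' + 1 := ⟨l - 1, by omega⟩
    simp only [List.length_cons, Nat.add_lt_add_iff_right] at hl
    rcases Nat.eq_zero_or_pos k with rfl | hk
    · have hx : Q.getD l z ∈ Q := by
        rw [List.getD_eq_getElem _ _ hl]; exact List.getElem_mem _
      obtain ⟨h1, h2⟩ := hEH.1 _ hx
      simp only [List.getD_cons_zero, List.getD_cons_succ]
      constructor
      · rintro a c (ha | ⟨i, hi, -⟩) hc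
        · apply h1 a ha c
          rcases hc with hc | ⟨j, hj, rfl⟩
          · exact List.mem_cons_of_mem _ hc
          · obtain rfl : j = 0 := by omega
            simp
        · omega
      · rintro a (ha | ⟨i, hi, -⟩)
        · exact h2 a ha
        · omega
    · obtain ⟨k, rfl⟩ : ∃ k', k = k' + 1 := ⟨k - 1, by omega⟩
      obtain ⟨h1, h2⟩ := ih (v :: A) z hEH.2 k l (by omega) hl
      have key : ∀ (a : V) (b : ℕ), (a ∈ A ∨ ∃ i < b + 1, a = (v :: Q).getD i z) →
          (a ∈ v :: A ∨ ∃ i < b, a = Q.getD i z) := by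
        rintro a b (ha | ⟨i, hi, rfl⟩)
        · exact Or.inl (List.mem_cons_of_mem _ ha)
        · rcases Nat.eq_zero_or_pos i with rfl | hi0
          · left; simp
          · obtain ⟨i, rfl⟩ : ∃ i', i = i' + 1 := ⟨i - 1, by omega⟩
            right
            exact ⟨i, by omega, by simp⟩
      simp only [List.getD_cons_succ]
      constructor
      · intro a c ha hc
        apply h1 a c (key a k ha)
        have := key c (k + 1) (by
          rcases hc with hc | ⟨j, hj, rfl⟩
          · exact Or.inl hc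
          · exact Or.inr ⟨j, by omega, rfl⟩)
        rcases this with h | ⟨j, hj, rfl⟩
        · exact Or.inl h
        · exact Or.inr ⟨j, by omega, rfl⟩
      · intro a ha
        exact h2 a (key a k ha)

/-- Final form of stage A: an end-homogeneous sequence `v 0, …, v (m-1)` and a limit vertex `z`. -/
theorem exists_seq (w : V → V → ℤ) (m : ℕ) (R : Finset V) (hR : 2 ^ (m ^ 3) ≤ R.card) :
    ∃ (v : ℕ → V) (z : V), (∀ i < m, v i ≠ z) ∧ (∀ i < m, ∀ j < m, v i = v j → i = j) ∧
      (∀ i k j l : ℕ, i < k → k < l → l < m → j ≤ k →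
        (w (v i) (v k) < w (v j) (v l) ↔ w (v i) (v k) < w (v j) z)) ∧
      (∀ i k l : ℕ, i < k → k < l → l < m →
        (w (v i) (v l) < w (v k) (v l) ↔ w (v i) z < w (v k) z)) := by
  have h := bd_le m 0
  rw [zero_add, show m * m ^ 2 = m ^ 3 by ring] at h
  obtain ⟨Q, hQl, z, -, -, hnd, hEH⟩ := exists_EH w m [] R (by simpa using h.trans hR)
  have hnd' := List.nodup_cons.1 hnd
  refine ⟨fun i => Q.getD i z, z, ?_, ?_, ?_, ?_⟩
  · intro i hi h
    apply hnd'.1
    rw [← h]
    change Q.getD i z ∈ Q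
    rw [List.getD_eq_getElem _ _ (by omega)]
    exact List.getElem_mem _
  · intro i hi j hj h
    simp only at h
    rw [List.getD_eq_getElem _ _ (by omega), List.getD_eq_getElem _ _ (by omega)] at h
    exact (List.Nodup.getElem_inj_iff hnd'.2).1 h
  · intro i k j l hik hkl hl hjk
    exact (EH.getD Q [] z hEH k l hkl (by omega)).1 _ _ (Or.inr ⟨i, hik, rfl⟩)
      (Or.inr ⟨j, hjk, rfl⟩)
  · intro i k l hik hkl hl
    exact (EH.getD Q [] z hEH k l hkl (by omega)).2 _ (Or.inr ⟨i, hik, rfl⟩)

end Pool.Agent.Helper25.EdgeOrd
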