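import Mathlib

set_option autoImplicit false

/-!
The classical Erdos-Szekeres theorem, adapted from the Mathlib archive (Bhavik Mehta).
-/

open Function Finset

namespace Pool.Agent.Helper25.EdgeOrd

section ES

variable {α β : Type*} [Fintype α] [LinearOrder α] [LinearOrder β] {f : α → β} {i : α}

/-- The possible lengths of an increasing sequence which ends at `i`. -/
noncomputable def incSeqTo (f : α → β) (i : α) : Finset ℕ :=
  open scoped Classical in
  image card {t : Finset α | IsGreatest t i ∧ StrictMonoOn f t}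

/-- The possible lengths of a decreasing sequence which ends at `i`. -/
noncomputable def decSeqTo (f : α → β) (i : α) : Finset ℕ :=
  open scoped Classical in
  image card {t : Finset α | IsGreatest t i ∧ StrictAntiOn f t}

lemma one_mem_incSeqTo : 1 ∈ incSeqTo f i := mem_image.2 ⟨{i}, by simp⟩

lemma one_mem_decSeqTo : 1 ∈ decSeqTo f i := one_mem_incSeqTo (β := βᵒᵈ)

lemma incSeqTo_nonempty : (incSeqTo f i).Nonempty := ⟨1, one_mem_incSeqTo⟩

lemma decSeqTo_nonempty : (decSeqTo f i).Nonempty := ⟨1, one_mem_decSeqTo⟩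

/-- The maximum length of an increasing sequence which ends at `i`. -/
noncomputable def maxIncSeqTo (f : α → β) (i : α) : ℕ :=
  max' (incSeqTo f i) incSeqTo_nonempty

/-- The maximum length of a decreasing sequence which ends at `i`. -/
noncomputable def maxDecSeqTo (f : α → β) (i : α) : ℕ :=
  max' (decSeqTo f i) decSeqTo_nonempty

lemma one_le_maxIncSeqTo : 1 ≤ maxIncSeqTo f i :=
  le_max' _ _ one_mem_incSeqTo

lemma one_le_maxDecSeqTo : 1 ≤ maxDecSeqTo f i :=
  le_max' _ _ one_mem_decSeqTo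

lemma maxIncSeqTo_mem : maxIncSeqTo f i ∈ incSeqTo f i :=
  max'_mem _ incSeqTo_nonempty

lemma maxDecSeqTo_mem : maxDecSeqTo f i ∈ decSeqTo f i :=
  max'_mem _ decSeqTo_nonempty

lemma maxIncSeqTo_lt {i j : α} (hij : i < j) (hfij : f i < f j) :
    maxIncSeqTo f i < maxIncSeqTo f j := by
  rw [Nat.lt_iff_add_one_le]
  refine le_max' _ _ ?_
  have : maxIncSeqTo f i ∈ incSeqTo f i := max'_mem _ incSeqTo_nonempty
  simp only [incSeqTo, mem_image, mem_filter, mem_univ, true_and, and_assoc] at this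
  obtain ⟨t, hti, ht₁, ht₂⟩ := this
  simp only [incSeqTo, mem_image, mem_filter, mem_univ, true_and, and_assoc]
  have : ∀ x ∈ t, x < j := by
    intro x hx
    exact (hti.2 hx).trans_lt hij
  refine ⟨insert j t, ?_, ?_, ?_⟩
  next =>
    convert hti.insert j
    next => simp
    next => rw [max_eq_left hij.le]
  next =>
    simp only [coe_insert]
    rw [strictMonoOn_insert_iff_of_forall_le]
    · refine ⟨?_, ht₁⟩
      intro x hx hxj
      exact (ht₁.monotoneOn hx hti.1 (hti.2 hx)).trans_lt hfij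
    · exact fun x hx ↦ (this x hx).le
  have : j ∉ t := fun hj ↦ lt_irrefl _ (this _ hj)
  simp [this, ht₂]

lemma maxDecSeqTo_gt {i j : α} (hij : i < j) (hfij : f j < f i) :
    maxDecSeqTo f i < maxDecSeqTo f j :=
  maxIncSeqTo_lt (β := βᵒᵈ) hij hfij

/-- The pair of labels of `i`. -/
noncomputable def esPair (f : α → β) (i : α) : ℕ × ℕ :=
  (maxIncSeqTo f i, maxDecSeqTo f i)

lemma esPair_injective (hf : Injective f) : Injective (esPair f) := by
  apply Injective.of_lt_imp_ne
  intro i j hij q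
  cases lt_or_gt_of_ne (hf.ne hij.ne)
  case inl h => exact (maxIncSeqTo_lt hij h).ne congr($q.1)
  case inr h => exact (maxDecSeqTo_gt hij h).ne congr($q.2)

/-- **Erdos-Szekeres Theorem** -/
theorem esTheorem {r s : ℕ} {f : α → β} (hn : r * s < Fintype.card α) (hf : Injective f) :
    (∃ t : Finset α, r < #t ∧ StrictMonoOn f t) ∨
      ∃ t : Finset α, s < #t ∧ StrictAntiOn f t := by
  classical
  rsuffices ⟨i, hi⟩ : ∃ i, r < maxIncSeqTo f i ∨ s < maxDecSeqTo f i
  · refine Or.imp ?_ ?_ hi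
    on_goal 1 =>
      have : maxIncSeqTo f i ∈ image card _ := maxIncSeqTo_mem
    on_goal 2 =>
      have : maxDecSeqTo f i ∈ image card _ := maxDecSeqTo_mem
    all_goals
      intro hi
      obtain ⟨t, ht₁, ht₂⟩ := mem_image.1 this
      refine ⟨t, by rwa [ht₂], ?_⟩
      rw [mem_filter] at ht₁
      exact ht₁.2.2
  by_contra! q
  have : Set.MapsTo (esPair f) (univ : Finset α) (Icc 1 r ×ˢ Icc 1 s : Finset _) := by
    simp [esPair, one_le_maxIncSeqTo, one_le_maxDecSeqTo, Set.MapsTo, *]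
  refine hn.not_ge ?_
  simpa using card_le_card_of_injOn (esPair f) this (esPair_injective hf).injOn

end ES

/-- Erdos-Szekeres for a function on `{0, …, m-1}`. -/
theorem es_range (f : ℕ → ℤ) (m M : ℕ) (hM : 0 < M) (h : M * M ≤ m)
    (hinj : ∀ i < m, ∀ j < m, f i = f j → i = j) :
    ∃ I : Finset ℕ, (∀ i ∈ I, i < m) ∧ I.card = M ∧
      ((∀ i ∈ I, ∀ j ∈ I, i < j → f i < f j) ∨ (∀ i ∈ I, ∀ j ∈ I, i < j → f j < f i)) := by
  obtain ⟨K, rfl⟩ : ∃ K, M = K + 1 := ⟨M - 1, by omega⟩
  have hlt : K * K < Fintype.card (Fin m) := by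
    rw [Fintype.card_fin]
    nlinarith
  have hf : Injective (fun i : Fin m => f i) := by
    intro i j hij
    exact Fin.ext (hinj i i.2 j j.2 hij)
  rcases esTheorem hlt hf with ⟨t, ht, hmono⟩ | ⟨t, ht, hmono⟩
  · obtain ⟨t', ht', hc⟩ := Finset.exists_subset_card_eq (show K + 1 ≤ t.card from ht)
    refine ⟨t'.map Fin.valEmbedding, ?_, by simp [hc], Or.inl ?_⟩
    · intro i hi
      obtain ⟨x, -, rfl⟩ := Finset.mem_map.1 hi
      exact x.2
    · intro i hi j hj hij
      obtain ⟨x, hx, rfl⟩ := Finset.mem_map.1 hi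
      obtain ⟨y, hy, rfl⟩ := Finset.mem_map.1 hj
      exact hmono (ht' hx) (ht' hy) hij
  · obtain ⟨t', ht', hc⟩ := Finset.exists_subset_card_eq (show K + 1 ≤ t.card from ht)
    refine ⟨t'.map Fin.valEmbedding, ?_, by simp [hc], Or.inr ?_⟩
    · intro i hi
      obtain ⟨x, -, rfl⟩ := Finset.mem_map.1 hi
      exact x.2
    · intro i hi j hj hij
      obtain ⟨x, hx, rfl⟩ := Finset.mem_map.1 hi
      obtain ⟨y, hy, rfl⟩ := Finset.mem_map.1 hj
      exact hmono (ht' hx) (ht' hy) hij

end Pool.Agent.Helper25.EdgeOrd
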