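import Mathlib

set_option autoImplicit false

namespace Pool.Agent.Helper25.EdgeOrd

/-- The homogeneous structure extracted from an edge ordering, on a finite index set `I`. -/
structure Hom (W : ℕ → ℕ → ℤ) (P : ℕ → ℤ) (I : Finset ℕ) : Prop where
  pos : ∀ i ∈ I, ∀ k ∈ I, i < k → P i < P k
  ne : ∀ i ∈ I, ∀ k ∈ I, ∀ j ∈ I, i < k → j ≤ k → W i k ≠ P j
  ext1 : ∀ i ∈ I, ∀ k ∈ I, ∀ j ∈ I, ∀ l ∈ I, i < k → k < l → j ≤ k → W i k < P j → W i k < W j l
  ext2 : ∀ i ∈ I, ∀ k ∈ I, ∀ j ∈ I, ∀ l ∈ I, i < k → k < l → j ≤ k → P j < W i k → W j l < W i k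
  top : ∀ i ∈ I, ∀ j ∈ I, ∀ l ∈ I, i < j → j < l → W i l < W j l

theorem Hom.mono {W : ℕ → ℕ → ℤ} {P : ℕ → ℤ} {I J : Finset ℕ} (h : Hom W P I) (hJ : J ⊆ I) :
    Hom W P J where
  pos i hi k hk := h.pos i (hJ hi) k (hJ hk)
  ne i hi k hk j hj := h.ne i (hJ hi) k (hJ hk) j (hJ hj)
  ext1 i hi k hk j hj l hl := h.ext1 i (hJ hi) k (hJ hk) j (hJ hj) l (hJ hl)
  ext2 i hi k hk j hj l hl := h.ext2 i (hJ hi) k (hJ hk) j (hJ hj) l (hJ hl)
  top i hi j hj l hl := h.top i (hJ hi) j (hJ hj) l (hJ hl)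

def TyA (W : ℕ → ℕ → ℤ) (P : ℕ → ℤ) (S : Finset ℕ) : Prop :=
  ∀ i ∈ S, ∀ k ∈ S, i < k → P k < W i k

def TyB (W : ℕ → ℕ → ℤ) (P : ℕ → ℤ) (S : Finset ℕ) : Prop :=
  ∀ i ∈ S, ∀ k ∈ S, i < k → P i < W i k ∧ W i k < P k

def TyC (W : ℕ → ℕ → ℤ) (P : ℕ → ℤ) (S : Finset ℕ) : Prop :=
  ∀ i ∈ S, ∀ k ∈ S, i < k → W i k < P i ∧ ∀ h ∈ S, h < i → P h < W i k

def TyD (W : ℕ → ℕ → ℤ) (P : ℕ → ℤ) (S : Finset ℕ) : Prop :=
  ∀ i ∈ S, ∀ k ∈ S, i < k → ∀ h ∈ S, h ≤ i → W i k < P h

/-- Splitting a finite set of naturals at a prescribed rank. -/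
theorem exists_rank (K : Finset ℕ) : ∀ G : ℕ, 1 ≤ G → G ≤ K.card →
    ∃ j ∈ K, (K.filter (fun x => x ≤ j)).card = G := by
  induction K using Finset.induction_on_max with
  | empty => intro G h1 h2; simp at h2; omega
  | insert a K ha ih =>
    intro G h1 h2
    have haK : a ∉ K := fun h => lt_irrefl _ (ha a h)
    rw [Finset.card_insert_of_notMem haK] at h2
    by_cases hG : G ≤ K.card
    · obtain ⟨j, hj, hc⟩ := ih G h1 hG
      refine ⟨j, Finset.mem_insert_of_mem hj, ?_⟩
      rw [Finset.filter_insert, if_neg (by have := ha j hj; omega)]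
      exact hc
    · refine ⟨a, Finset.mem_insert_self _ _, ?_⟩
      rw [Finset.filter_true_of_mem]
      · rw [Finset.card_insert_of_notMem haK]; omega
      · intro x hx
        rcases Finset.mem_insert.1 hx with rfl | hx
        · exact le_rfl
        · exact (ha x hx).le

/-- The four-parameter Ramsey recursion. -/
theorem ramseyC (W : ℕ → ℕ → ℤ) (P : ℕ → ℤ) : ∀ s a b c d : ℕ, a + b + c + d = s →
    ∀ I : Finset ℕ, Hom W P I → 4 ^ s ≤ I.card →
    (∃ S ⊆ I, S.card = a + 1 ∧ TyA W P S) ∨ (∃ S ⊆ I, S.card = b + 1 ∧ TyB W P S) ∨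
    (∃ S ⊆ I, S.card = c + 1 ∧ TyC W P S) ∨ (∃ S ⊆ I, S.card = d + 1 ∧ TyD W P S) := by
  intro s
  induction s using Nat.strong_induction_on with
  | _ s ih =>
  intro a b c d hs I hI hcard
  have hne : I.Nonempty := by
    rw [← Finset.card_pos]
    exact lt_of_lt_of_le (by positivity) hcard
  obtain ⟨x0, hx0⟩ := hne
  rcases Nat.eq_zero_or_pos a with rfl | ha
  · left
    refine ⟨{x0}, by simpa using hx0, by simp, ?_⟩
    intro i hi k hk hik
    simp only [Finset.mem_singleton] at hi hk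
    omega
  rcases Nat.eq_zero_or_pos b with rfl | hb
  · right; left
    refine ⟨{x0}, by simpa using hx0, by simp, ?_⟩
    intro i hi k hk hik
    simp only [Finset.mem_singleton] at hi hk
    omega
  rcases Nat.eq_zero_or_pos c with rfl | hc
  · right; right; left
    refine ⟨{x0}, by simpa using hx0, by simp, ?_⟩
    intro i hi k hk hik
    simp only [Finset.mem_singleton] at hi hk
    omega
  rcases Nat.eq_zero_or_pos d with rfl | hd
  · right; right; right
    refine ⟨{x0}, by simpa using hx0, by simp, ?_⟩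
    intro i hi k hk hik
    simp only [Finset.mem_singleton] at hi hk
    omega
  obtain ⟨a, rfl⟩ : ∃ a', a = a' + 1 := ⟨a - 1, by omega⟩
  obtain ⟨b, rfl⟩ : ∃ b', b = b' + 1 := ⟨b - 1, by omega⟩
  obtain ⟨c, rfl⟩ : ∃ c', c = c' + 1 := ⟨c - 1, by omega⟩
  obtain ⟨d, rfl⟩ : ∃ d', d = d' + 1 := ⟨d - 1, by omega⟩
  obtain ⟨t, rfl⟩ : ∃ t, s = t + 1 := ⟨s - 1, by omega⟩
  clear ha hb hc hd
  set v := I.min' ⟨x0, hx0⟩ with hv
  have hvI : v ∈ I := Finset.min'_mem _ _
  have hvmin : ∀ x ∈ I, v ≤ x := fun x hx => Finset.min'_le _ _ hx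
  set K := I.erase v with hK
  have hKI : K ⊆ I := Finset.erase_subset _ _
  have hvK : ∀ k ∈ K, v < k := by
    intro k hk
    rw [hK, Finset.mem_erase] at hk
    exact lt_of_le_of_ne (hvmin k hk.2) (Ne.symm hk.1)
  have hKcard : K.card + 1 = I.card := Finset.card_erase_add_one hvI
  set KA := K.filter (fun k => P k < W v k) with hKA
  set KB := K.filter (fun k => P v < W v k ∧ W v k < P k) with hKB
  set KM := K.filter (fun k => W v k < P v) with hKM
  have hsplit : K.card ≤ KA.card + KB.card + KM.card := by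
    have hsub : K ⊆ KA ∪ KB ∪ KM := by
      intro k hk
      have hkI := hKI hk
      have hvk := hvK k hk
      have h1 := hI.ne v hvI k hkI k hkI hvk le_rfl
      have h2 := hI.ne v hvI k hkI v hvI hvk hvk.le
      simp only [hKA, hKB, hKM, Finset.mem_union, Finset.mem_filter]
      rcases lt_or_gt_of_ne h2 with h | h
      · exact Or.inr ⟨hk, h⟩
      · rcases lt_or_gt_of_ne h1 with h' | h'
        · exact Or.inl (Or.inr ⟨hk, h, h'⟩)
        · exact Or.inl (Or.inl ⟨hk, h'⟩)
    calc K.card ≤ (KA ∪ KB ∪ KM).card := Finset.card_le_card hsub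
      _ ≤ (KA ∪ KB).card + KM.card := Finset.card_union_le _ _
      _ ≤ _ := by have := Finset.card_union_le KA KB; omega
  have hKAI : KA ⊆ I := (Finset.filter_subset _ _).trans hKI
  have hKBI : KB ⊆ I := (Finset.filter_subset _ _).trans hKI
  have hKMI : KM ⊆ I := (Finset.filter_subset _ _).trans hKI
  have hpow : 4 ^ (t + 1) = 4 * 4 ^ t := by ring
  -- case A
  by_cases hcA : 4 ^ t ≤ KA.card
  · rcases ih t (by omega) a (b + 1) (c + 1) (d + 1) (by omega) KA (hI.mono hKAI) hcA with
      ⟨S, hS, hSc, hT⟩ | ⟨S, hS, hSc, hT⟩ | ⟨S, hS, hSc, hT⟩ | ⟨S, hS, hSc, hT⟩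
    · left
      have hvS : v ∉ S := fun h => lt_irrefl _ (hvK v ((Finset.filter_subset _ _) (hS h)))
      refine ⟨insert v S, Finset.insert_subset hvI (hS.trans hKAI), ?_, ?_⟩
      · rw [Finset.card_insert_of_notMem hvS, hSc]
      · intro i hi k hk hik
        rcases Finset.mem_insert.1 hi with rfl | hi
        · rcases Finset.mem_insert.1 hk with rfl | hk
          · omega
          · exact (Finset.mem_filter.1 (hS hk)).2
        · rcases Finset.mem_insert.1 hk with rfl | hk
          · have := hvmin i (hKAI (hS hi)); omega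
          · exact hT i hi k hk hik
    · exact Or.inr (Or.inl ⟨S, hS.trans hKAI, hSc, hT⟩)
    · exact Or.inr (Or.inr (Or.inl ⟨S, hS.trans hKAI, hSc, hT⟩))
    · exact Or.inr (Or.inr (Or.inr ⟨S, hS.trans hKAI, hSc, hT⟩))
  -- case B
  by_cases hcB : 4 ^ t ≤ KB.card
  · rcases ih t (by omega) (a + 1) b (c + 1) (d + 1) (by omega) KB (hI.mono hKBI) hcB with
      ⟨S, hS, hSc, hT⟩ | ⟨S, hS, hSc, hT⟩ | ⟨S, hS, hSc, hT⟩ | ⟨S, hS, hSc, hT⟩
    · exact Or.inl ⟨S, hS.trans hKBI, hSc, hT⟩
    · right; left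
      have hvS : v ∉ S := fun h => lt_irrefl _ (hvK v ((Finset.filter_subset _ _) (hS h)))
      refine ⟨insert v S, Finset.insert_subset hvI (hS.trans hKBI), ?_, ?_⟩
      · rw [Finset.card_insert_of_notMem hvS, hSc]
      · intro i hi k hk hik
        rcases Finset.mem_insert.1 hi with rfl | hi
        · rcases Finset.mem_insert.1 hk with rfl | hk
          · omega
          · exact (Finset.mem_filter.1 (hS hk)).2
        · rcases Finset.mem_insert.1 hk with rfl | hk
          · have := hvmin i (hKBI (hS hi)); omega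
          · exact hT i hi k hk hik
    · exact Or.inr (Or.inr (Or.inl ⟨S, hS.trans hKBI, hSc, hT⟩))
    · exact Or.inr (Or.inr (Or.inr ⟨S, hS.trans hKBI, hSc, hT⟩))
  have hMcard : 2 * 4 ^ t ≤ KM.card := by omega
  have h4 : 1 ≤ 4 ^ t := Nat.one_le_pow _ _ (by norm_num)
  obtain ⟨j0, hj0, hj0c⟩ := exists_rank KM (4 ^ t) h4 (by omega)
  have hj0I := hKMI hj0
  set L := KM.filter (fun x => x ≤ j0) with hL
  set U := KM.filter (fun x => j0 < x) with hU
  have hLU : L.card + U.card = KM.card := by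
    have := Finset.card_filter_add_card_filter_not (s := KM) (fun x => x ≤ j0)
    simp only [not_le] at this
    exact this
  have hLI : L ⊆ I := (Finset.filter_subset _ _).trans hKMI
  have hUI : U ⊆ I := (Finset.filter_subset _ _).trans hKMI
  by_cases hk : ∃ k ∈ I, j0 < k ∧ W j0 k < P v
  · -- add `v` to a type D set inside `L`
    obtain ⟨ks, hksI, hjk, hWk⟩ := hk
    rcases ih t (by omega) (a + 1) (b + 1) (c + 1) d (by omega) L (hI.mono hLI) hj0c.ge with
      ⟨S, hS, hSc, hT⟩ | ⟨S, hS, hSc, hT⟩ | ⟨S, hS, hSc, hT⟩ | ⟨S, hS, hSc, hT⟩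
    · exact Or.inl ⟨S, hS.trans hLI, hSc, hT⟩
    · exact Or.inr (Or.inl ⟨S, hS.trans hLI, hSc, hT⟩)
    · exact Or.inr (Or.inr (Or.inl ⟨S, hS.trans hLI, hSc, hT⟩))
    · right; right; right
      have hSK : ∀ x ∈ S, x ∈ K ∧ W v x < P v ∧ x ≤ j0 := by
        intro x hx
        have h1 := Finset.mem_filter.1 (hS hx)
        have h2 := Finset.mem_filter.1 h1.1
        exact ⟨h2.1, h2.2, h1.2⟩
      have hvS : v ∉ S := fun h => lt_irrefl _ (hvK v (hSK v h).1)
      refine ⟨insert v S, Finset.insert_subset hvI (hS.trans hLI), ?_, ?_⟩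
      · rw [Finset.card_insert_of_notMem hvS, hSc]
      · intro i hi k hk hik h hh hhi
        rcases Finset.mem_insert.1 hk with rfl | hk
        · rcases Finset.mem_insert.1 hi with rfl | hi
          · omega
          · have := hvmin i (hLI (hS hi)); omega
        · have hkK := hSK k hk
          rcases Finset.mem_insert.1 hi with rfl | hi
          · have hhv : h = v := by
              rcases Finset.mem_insert.1 hh with rfl | hh
              · rfl
              · have := hvK h (hSK h hh).1; omega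
            rw [hhv]
            exact hkK.2.1
          · rcases Finset.mem_insert.1 hh with rfl | hh
            · have hiI := hLI (hS hi)
              have hkI := hLI (hS hk)
              have hPi : W i k < P i := hT i hi k hk hik i hi le_rfl
              have h1 : W i k < W i ks :=
                hI.ext1 i hiI k hkI i hiI ks hksI hik (by omega) hik.le hPi
              have h2 : W i ks < W j0 ks := hI.top i hiI j0 hj0I ks hksI (by omega) hjk
              omega
            · exact hT i hi k hk hik h hh hhi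
  · -- add `v` to a type C set inside `U`
    push Not at hk
    rcases ih t (by omega) (a + 1) (b + 1) c (d + 1) (by omega) U (hI.mono hUI) (by omega) with
      ⟨S, hS, hSc, hT⟩ | ⟨S, hS, hSc, hT⟩ | ⟨S, hS, hSc, hT⟩ | ⟨S, hS, hSc, hT⟩
    · exact Or.inl ⟨S, hS.trans hUI, hSc, hT⟩
    · exact Or.inr (Or.inl ⟨S, hS.trans hUI, hSc, hT⟩)
    · right; right; left
      have hSK : ∀ x ∈ S, x ∈ K ∧ W v x < P v ∧ j0 < x := by
        intro x hx
        have h1 := Finset.mem_filter.1 (hS hx)
        have h2 := Finset.mem_filter.1 h1.1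
        exact ⟨h2.1, h2.2, h1.2⟩
      have hvS : v ∉ S := fun h => lt_irrefl _ (hvK v (hSK v h).1)
      refine ⟨insert v S, Finset.insert_subset hvI (hS.trans hUI), ?_, ?_⟩
      · rw [Finset.card_insert_of_notMem hvS, hSc]
      · intro i hi k hk' hik
        rcases Finset.mem_insert.1 hk' with rfl | hk'
        · rcases Finset.mem_insert.1 hi with rfl | hi
          · omega
          · have := hvmin i (hUI (hS hi)); omega
        · have hkK := hSK k hk'
          rcases Finset.mem_insert.1 hi with rfl | hi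
          · refine ⟨hkK.2.1, ?_⟩
            intro h hh hhv
            rcases Finset.mem_insert.1 hh with rfl | hh
            · omega
            · have := hvK h (hSK h hh).1; omega
          · refine ⟨(hT i hi k hk' hik).1, ?_⟩
            intro h hh hhi
            rcases Finset.mem_insert.1 hh with rfl | hh
            · have hiI := hUI (hS hi)
              have hkI := hUI (hS hk')
              have hi0 := (hSK i hi).2.2
              have h1 : W j0 k < W i k := hI.top j0 hj0I i hiI k hkI hi0 hik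
              have h2 := hk k hkI (by omega)
              omega
            · exact (hT i hi k hk' hik).2 h hh hhi
    · exact Or.inr (Or.inr (Or.inr ⟨S, hS.trans hUI, hSc, hT⟩))

end Pool.Agent.Helper25.EdgeOrd
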