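import Mathlib
import Pool.Agent.Helper25.StageA
import Pool.Agent.Helper25.StageB
import Pool.Agent.Helper25.StageC

set_option autoImplicit false

namespace Pool.Agent.Helper25.EdgeOrd

/-- Lexicographic comparison of pairs. -/
def lexR {n : ℕ} (i j k l : Fin n) : Prop := i < k ∨ (i = k ∧ j < l)

/-- Max-lexicographic comparison of pairs. -/
def maxLexR {n : ℕ} (i j k l : Fin n) : Prop := i < k ∨ (i = k ∧ l < j)

theorem lexR_tri {n : ℕ} (i j k l : Fin n) : lexR i j k l ∨ (i = k ∧ j = l) ∨ lexR k l i j := by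
  unfold lexR
  rcases lt_trichotomy i k with h | h | h
  · exact Or.inl (Or.inl h)
  · rcases lt_trichotomy j l with h' | h' | h'
    · exact Or.inl (Or.inr ⟨h, h'⟩)
    · exact Or.inr (Or.inl ⟨h, h'⟩)
    · exact Or.inr (Or.inr (Or.inr ⟨h.symm, h'⟩))
  · exact Or.inr (Or.inr (Or.inl h))

theorem maxLexR_tri {n : ℕ} (i j k l : Fin n) :
    maxLexR i j k l ∨ (i = k ∧ j = l) ∨ maxLexR k l i j := by
  unfold maxLexR
  rcases lt_trichotomy i k with h | h | h
  · exact Or.inl (Or.inl h)
  · rcases lt_trichotomy j l with h' | h' | h'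
    · exact Or.inr (Or.inr (Or.inr ⟨h.symm, h'⟩))
    · exact Or.inr (Or.inl ⟨h, h'⟩)
    · exact Or.inl (Or.inr ⟨h, h'⟩)
  · exact Or.inr (Or.inr (Or.inl h))

/-- The weight function `w` is of one of the four canonical types along `φ`. -/
def CanonW {V : Type} {n : ℕ} (w : V → V → ℤ) (φ : Fin n → V) : Prop :=
  (∀ i j k l : Fin n, i < j → k < l → (w (φ i) (φ j) < w (φ k) (φ l) ↔ lexR i j k l)) ∨
  (∀ i j k l : Fin n, i < j → k < l → (w (φ i) (φ j) < w (φ k) (φ l) ↔ maxLexR i j k l)) ∨
  (∀ i j k l : Fin n, i < j → k < l → (w (φ i) (φ j) < w (φ k) (φ l) ↔ lexR k l i j)) ∨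
  (∀ i j k l : Fin n, i < j → k < l → (w (φ i) (φ j) < w (φ k) (φ l) ↔ maxLexR k l i j))

theorem iff_of_imp {V : Type} {n : ℕ} (w : V → V → ℤ) (φ : Fin n → V)
    (R : Fin n → Fin n → Fin n → Fin n → Prop)
    (htri : ∀ i j k l, R i j k l ∨ (i = k ∧ j = l) ∨ R k l i j)
    (h : ∀ i j k l : Fin n, i < j → k < l → R i j k l → w (φ i) (φ j) < w (φ k) (φ l)) :
    ∀ i j k l : Fin n, i < j → k < l → (w (φ i) (φ j) < w (φ k) (φ l) ↔ R i j k l) := by
  intro i j k l hij hkl
  refine ⟨fun hlt => ?_, h i j k l hij hkl⟩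
  rcases htri i j k l with hR | ⟨rfl, rfl⟩ | hR
  · exact hR
  · exact absurd hlt (lt_irrefl _)
  · exact absurd (h k l i j hkl hij hR) (not_lt.2 hlt.le)

theorem CanonW.neg {V : Type} {n : ℕ} {w : V → V → ℤ} {φ : Fin n → V}
    (h : CanonW (fun x y => - w x y) φ) : CanonW w φ := by
  rcases h with h | h | h | h
  · right; right; left
    intro i j k l hij hkl
    rw [← h k l i j hkl hij]; simp
  · right; right; right
    intro i j k l hij hkl
    rw [← h k l i j hkl hij]; simp
  · left
    intro i j k l hij hkl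
    rw [← h k l i j hkl hij]; simp
  · right; left
    intro i j k l hij hkl
    rw [← h k l i j hkl hij]; simp

section types

variable {V : Type} {W : ℕ → ℕ → ℤ} {P : ℕ → ℤ} {S : Finset ℕ}

/-- Type A in terms of indices. -/
theorem typeA_index (hS : Hom W P S) (hT : TyA W P S) (a b c d : ℕ) (ha : a ∈ S) (hb : b ∈ S)
    (hc : c ∈ S) (hd : d ∈ S) (hab : a < b) (hcd : c < d) (h : d < b ∨ (d = b ∧ a < c)) :
    W a b < W c d := by
  rcases h with h | ⟨rfl, h⟩
  · rcases Nat.lt_or_ge d a with hda | hda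
    · have h1 : W d a < W c d := hS.ext2 c hc d hd d hd a ha hcd hda le_rfl (hT c hc d hd hcd)
      have h2 : W a b < W d a := hS.ext2 d hd a ha a ha b hb hda hab le_rfl (hT d hd a ha hda)
      omega
    · have hP : P a < W c d := by
        have h1 := hT c hc d hd hcd
        rcases Nat.lt_or_ge a d with h' | h'
        · have := hS.pos a ha d hd h'; omega
        · obtain rfl : a = d := le_antisymm hda h'
          exact h1
      exact hS.ext2 c hc d hd a ha b hb hcd h hda hP
  · exact hS.top a ha c hc d hd h hcd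

/-- Type D in terms of indices. -/
theorem typeD_index (hS : Hom W P S) (hT : TyD W P S) (a b c d : ℕ) (ha : a ∈ S) (hb : b ∈ S)
    (hc : c ∈ S) (hd : d ∈ S) (hab : a < b) (hcd : c < d) (h : b < d ∨ (b = d ∧ a < c)) :
    W a b < W c d := by
  rcases h with h | ⟨rfl, h⟩
  · have hP : ∀ x ∈ S, W a b < P x := by
      intro x hx
      rcases Nat.lt_or_ge a x with h' | h'
      · have h1 := hT a ha b hb hab a ha le_rfl
        have h2 := hS.pos a ha x hx h'
        omega
      · exact hT a ha b hb hab x hx h'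
    rcases Nat.lt_or_ge b c with hbc | hbc
    · have h1 : W a b < W b d := hS.ext1 a ha b hb b hb d hd hab h le_rfl (hP b hb)
      have h2 : W b d < W c d := hS.top b hb c hc d hd hbc hcd
      omega
    · exact hS.ext1 a ha b hb c hc d hd hab h hbc (hP c hc)
  · exact hS.top a ha c hc b hb h hcd

/-- Type B in terms of indices. -/
theorem typeB_index (hS : Hom W P S) (hT : TyB W P S) (a b c d : ℕ) (ha : a ∈ S) (hb : b ∈ S)
    (hc : c ∈ S) (hd : d ∈ S) (hab : a < b) (hcd : c < d) (h : a < c ∨ (a = c ∧ d < b)) :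
    W a b < W c d := by
  rcases h with h | ⟨rfl, h⟩
  · rcases lt_trichotomy b c with hbc | rfl | hbc
    · have h1 : W a b < W b d := hS.ext1 a ha b hb b hb d hd hab (by omega) le_rfl
        (hT a ha b hb hab).2
      have h2 : W b d < W c d := hS.top b hb c hc d hd hbc hcd
      omega
    · exact hS.ext1 a ha b hb b hb d hd hab hcd le_rfl (hT a ha b hb hab).2
    · have h1 : W a b < W a c := hS.ext2 a ha c hc a ha b hb h hbc h.le (hT a ha c hc h).1
      have h2 : W a c < W c d := hS.ext1 a ha c hc c hc d hd h hcd le_rfl (hT a ha c hc h).2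
      omega
  · exact hS.ext2 a ha d hd a ha b hb hcd h hcd.le (hT a ha d hd hcd).1

/-- Type C in terms of indices. -/
theorem typeC_index (hS : Hom W P S) (hT : TyC W P S) (a b c d : ℕ) (ha : a ∈ S) (hb : b ∈ S)
    (hc : c ∈ S) (hd : d ∈ S) (hab : a < b) (hcd : c < d) (h : a < c ∨ (a = c ∧ b < d)) :
    W a b < W c d := by
  rcases h with h | ⟨rfl, h⟩
  · have hP := (hT a ha b hb hab).1
    rcases lt_trichotomy b d with hbd | rfl | hbd
    · rcases Nat.lt_or_ge b c with hbc | hbc
      · have hPb := hS.pos a ha b hb hab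
        have h1 : W a b < W b d := hS.ext1 a ha b hb b hb d hd hab hbd le_rfl (by omega)
        have h2 : W b d < W c d := hS.top b hb c hc d hd hbc hcd
        omega
      · have hPc := hS.pos a ha c hc h
        exact hS.ext1 a ha b hb c hc d hd hab hbd hbc (by omega)
    · exact hS.top a ha c hc b hb h hcd
    · exact hS.ext2 c hc d hd a ha b hb hcd hbd (by omega) ((hT c hc d hd hcd).2 a ha h)
  · exact hS.ext1 a ha b hb a ha d hd hab h hab.le (hT a ha b hb hab).1

end types

/-- A homogeneous set gives a canonical copy. -/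
theorem exists_canonW {V : Type} (w : V → V → ℤ) (hsymm : ∀ x y, w x y = w y x) (v : ℕ → V)
    (P : ℕ → ℤ) (I : Finset ℕ) (hvinj : ∀ i ∈ I, ∀ j ∈ I, v i = v j → i = j)
    (hI : Hom (fun i k => w (v i) (v k)) P I) (n : ℕ) (hn : 1 ≤ n)
    (hcard : 4 ^ (4 * (n - 1)) ≤ I.card) :
    ∃ φ : Fin n → V, Function.Injective φ ∧ CanonW w φ := by
  have hinj : ∀ (S : Finset ℕ) (_ : S ⊆ I) (h : S.card = n),
      Function.Injective (fun i : Fin n => v (S.orderEmbOfFin h i)) := by
    intro S hS h i j hij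
    have := hvinj _ (hS (Finset.orderEmbOfFin_mem S h i)) _ (hS (Finset.orderEmbOfFin_mem S h j)) hij
    exact (S.orderEmbOfFin h).injective this
  have hinj' : ∀ (S : Finset ℕ) (_ : S ⊆ I) (h : S.card = n),
      Function.Injective (fun i : Fin n => v (S.orderEmbOfFin h (Fin.rev i))) := by
    intro S hS h i j hij
    exact Fin.rev_injective (hinj S hS h hij)
  rcases ramseyC _ P (4 * (n - 1)) (n - 1) (n - 1) (n - 1) (n - 1) (by omega) I hI hcard with
    ⟨S, hS, hSc, hT⟩ | ⟨S, hS, hSc, hT⟩ | ⟨S, hS, hSc, hT⟩ | ⟨S, hS, hSc, hT⟩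
  · have h : S.card = n := by omega
    have hSH := hI.mono hS
    refine ⟨_, hinj' S hS h, Or.inr (Or.inl ?_)⟩
    apply iff_of_imp w _ _ maxLexR_tri
    intro i j k l hij hkl hR
    rw [hsymm (v (S.orderEmbOfFin h (Fin.rev i))), hsymm (v (S.orderEmbOfFin h (Fin.rev k)))]
    refine typeA_index hSH hT _ _ _ _ (S.orderEmbOfFin_mem h _) (S.orderEmbOfFin_mem h _)
      (S.orderEmbOfFin_mem h _) (S.orderEmbOfFin_mem h _) ?_ ?_ ?_
    · simpa using hij
    · simpa using hkl
    · rcases hR with h1 | ⟨rfl, h1⟩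
      · left; simpa using h1
      · right; exact ⟨rfl, by simpa using h1⟩
  · have h : S.card = n := by omega
    have hSH := hI.mono hS
    refine ⟨_, hinj S hS h, Or.inr (Or.inl ?_)⟩
    apply iff_of_imp w _ _ maxLexR_tri
    intro i j k l hij hkl hR
    refine typeB_index hSH hT _ _ _ _ (S.orderEmbOfFin_mem h _) (S.orderEmbOfFin_mem h _)
      (S.orderEmbOfFin_mem h _) (S.orderEmbOfFin_mem h _) ?_ ?_ ?_
    · simpa using hij
    · simpa using hkl
    · rcases hR with h1 | ⟨rfl, h1⟩
      · left; simpa using h1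
      · right; exact ⟨rfl, by simpa using h1⟩
  · have h : S.card = n := by omega
    have hSH := hI.mono hS
    refine ⟨_, hinj S hS h, Or.inl ?_⟩
    apply iff_of_imp w _ _ lexR_tri
    intro i j k l hij hkl hR
    refine typeC_index hSH hT _ _ _ _ (S.orderEmbOfFin_mem h _) (S.orderEmbOfFin_mem h _)
      (S.orderEmbOfFin_mem h _) (S.orderEmbOfFin_mem h _) ?_ ?_ ?_
    · simpa using hij
    · simpa using hkl
    · rcases hR with h1 | ⟨rfl, h1⟩
      · left; simpa using h1
      · right; exact ⟨rfl, by simpa using h1⟩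
  · have h : S.card = n := by omega
    have hSH := hI.mono hS
    refine ⟨_, hinj' S hS h, Or.inr (Or.inr (Or.inl ?_))⟩
    apply iff_of_imp w _ (fun i j k l => lexR k l i j) (fun i j k l => by
      rcases lexR_tri k l i j with h | ⟨h1, h2⟩ | h
      · exact Or.inl h
      · exact Or.inr (Or.inl ⟨h1.symm, h2.symm⟩)
      · exact Or.inr (Or.inr h))
    intro i j k l hij hkl hR
    rw [hsymm (v (S.orderEmbOfFin h (Fin.rev i))), hsymm (v (S.orderEmbOfFin h (Fin.rev k)))]
    refine typeD_index hSH hT _ _ _ _ (S.orderEmbOfFin_mem h _) (S.orderEmbOfFin_mem h _)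
      (S.orderEmbOfFin_mem h _) (S.orderEmbOfFin_mem h _) ?_ ?_ ?_
    · simpa using hij
    · simpa using hkl
    · rcases hR with h1 | ⟨rfl, h1⟩
      · left; simpa using h1
      · right; exact ⟨rfl, by simpa using h1⟩

/-- The upper bound for weight functions. -/
theorem upper_general {V : Type} [Fintype V] [DecidableEq V] (w : V → V → ℤ)
    (hsymm : ∀ x y, w x y = w y x)
    (hinj : ∀ a b c d, a ≠ b → c ≠ d → w a b = w c d → (a = c ∧ b = d) ∨ (a = d ∧ b = c))
    (n : ℕ) (hn : 1 ≤ n) (hV : 2 ^ 2 ^ (48 * (n - 1)) ≤ Fintype.card V) :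
    ∃ φ : Fin n → V, Function.Injective φ ∧ CanonW w φ := by
  set M := 4 ^ (4 * (n - 1)) with hM
  set m := M * M with hm
  have hm3 : m ^ 3 = 2 ^ (48 * (n - 1)) := by
    rw [hm, hM, ← pow_add, ← pow_mul, show (4 : ℕ) = 2 ^ 2 by norm_num, ← pow_mul]
    congr 1
    ring
  have hMpos : 0 < M := by positivity
  obtain ⟨v, z, hz, hv, h1, h2⟩ := exists_seq w m Finset.univ (by
    rw [hm3, Finset.card_univ]; exact hV)
  obtain ⟨I, hIm, hIc, hI⟩ := es_range (fun i => w (v i) z) m M hMpos le_rfl (by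
    intro i hi j hj h
    rcases hinj _ _ _ _ (hz i hi) (hz j hj) h with h' | h'
    · exact hv i hi j hj h'.1
    · exact absurd h'.1 (hz i hi))
  have hvI : ∀ i ∈ I, ∀ j ∈ I, v i = v j → i = j := fun i hi j hj => hv i (hIm i hi) j (hIm j hj)
  have hne1 : ∀ i ∈ I, ∀ k ∈ I, ∀ j ∈ I, i < k → w (v i) (v k) ≠ w (v j) z := by
    intro i hi k hk j hj hik h
    have hik' : v i ≠ v k := fun h => by have := hvI i hi k hk h; omega
    rcases hinj _ _ _ _ hik' (hz j (hIm j hj)) h with h' | h'
    · exact hz k (hIm k hk) h'.2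
    · exact hz i (hIm i hi) h'.1
  have hne2 : ∀ i ∈ I, ∀ k ∈ I, ∀ j ∈ I, ∀ l ∈ I, i < k → k < l → j ≤ k →
      w (v i) (v k) ≠ w (v j) (v l) := by
    intro i hi k hk j hj l hl hik hkl hjk h
    have hik' : v i ≠ v k := fun h => by have := hvI i hi k hk h; omega
    have hjl' : v j ≠ v l := fun h => by have := hvI j hj l hl h; omega
    rcases hinj _ _ _ _ hik' hjl' h with h' | h'
    · have := hvI k hk l hl h'.2; omega
    · have := hvI i hi l hl h'.1; omega
  have hne3 : ∀ i ∈ I, ∀ j ∈ I, ∀ l ∈ I, i < j → j < l →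
      w (v i) (v l) ≠ w (v j) (v l) := by
    intro i hi j hj l hl hij hjl h
    have hil' : v i ≠ v l := fun h => by have := hvI i hi l hl h; omega
    have hjl' : v j ≠ v l := fun h => by have := hvI j hj l hl h; omega
    rcases hinj _ _ _ _ hil' hjl' h with h' | h'
    · have := hvI i hi j hj h'.1; omega
    · have := hvI i hi l hl h'.1; omega
  rcases hI with hI | hI
  · refine exists_canonW w hsymm v (fun i => w (v i) z) I hvI ?_ n hn (by rw [hIc])
    refine ⟨hI, fun i hi k hk j hj hik _ => hne1 i hi k hk j hj hik, ?_, ?_, ?_⟩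
    · intro i hi k hk j hj l hl hik hkl hjk h
      exact (h1 i k j l hik hkl (hIm l hl) hjk).2 h
    · intro i hi k hk j hj l hl hik hkl hjk h
      have h3 := h1 i k j l hik hkl (hIm l hl) hjk
      have h4 := hne2 i hi k hk j hj l hl hik hkl hjk
      rcases lt_or_gt_of_ne h4 with h5 | h5
      · have := h3.1 h5; omega
      · exact h5
    · intro i hi j hj l hl hij hjl
      exact (h2 i j l hij hjl (hIm l hl)).2 (hI i hi j hj hij)
  · have key : Hom (fun i k => (fun x y => - w x y) (v i) (v k)) (fun i => - w (v i) z) I := ?_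
    · obtain ⟨φ, hφ, hc⟩ := exists_canonW (fun x y => - w x y) (fun x y => by rw [hsymm]) v
        (fun i => - w (v i) z) I hvI key n hn (by rw [hIc])
      exact ⟨φ, hφ, hc.neg⟩
    refine ⟨?_, ?_, ?_, ?_, ?_⟩
    · intro i hi k hk hik
      have := hI i hi k hk hik
      omega
    · intro i hi k hk j hj hik _ h
      exact hne1 i hi k hk j hj hik (by simpa using h)
    · intro i hi k hk j hj l hl hik hkl hjk h
      have h3 := h1 i k j l hik hkl (hIm l hl) hjk
      have h4 := hne2 i hi k hk j hj l hl hik hkl hjk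
      have h' : - w (v i) (v k) < - w (v j) z := h
      change - w (v i) (v k) < - w (v j) (v l)
      rcases lt_or_gt_of_ne h4 with h5 | h5
      · have := h3.1 h5; omega
      · omega
    · intro i hi k hk j hj l hl hik hkl hjk h
      have h3 := h1 i k j l hik hkl (hIm l hl) hjk
      have h' : - w (v j) z < - w (v i) (v k) := h
      change - w (v j) (v l) < - w (v i) (v k)
      have := h3.2 (by omega)
      omega
    · intro i hi j hj l hl hij hjl
      have h3 := h2 i j l hij hjl (hIm l hl)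
      have h4 := hne3 i hi j hj l hl hij hjl
      have h5 := hI i hi j hj hij
      change - w (v i) (v l) < - w (v j) (v l)
      rcases lt_or_gt_of_ne h4 with h6 | h6
      · have := h3.1 h6; omega
      · omega

end Pool.Agent.Helper25.EdgeOrd
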