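import Mathlib
import Pool.Agent.Helper25.StageD

set_option autoImplicit false

namespace Pool.Agent.Helper25.EdgeOrd

/-! ### Levels -/

/-- The first binary digit in which `a` and `b` differ. -/
noncomputable def lev (a b : ℕ) : ℕ := sInf {p | a.testBit p ≠ b.testBit p}

theorem lev_comm (a b : ℕ) : lev a b = lev b a := by
  unfold lev
  congr 1
  ext p
  exact ne_comm

theorem lev_nonempty {a b : ℕ} (h : a ≠ b) : {p | a.testBit p ≠ b.testBit p}.Nonempty := by
  by_contra hne
  apply h
  apply Nat.eq_of_testBit_eq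
  intro i
  by_contra hi
  exact hne ⟨i, hi⟩

theorem lev_spec {a b : ℕ} (h : a ≠ b) : a.testBit (lev a b) ≠ b.testBit (lev a b) :=
  Nat.sInf_mem (lev_nonempty h)

theorem lev_min {a b p : ℕ} (h : p < lev a b) : a.testBit p = b.testBit p := by
  by_contra hne
  exact Nat.notMem_of_lt_sInf h hne

theorem lev_le {a b p : ℕ} (h : a.testBit p ≠ b.testBit p) : lev a b ≤ p := Nat.sInf_le h

theorem lev_lt {a b m : ℕ} (ha : a < 2 ^ m) (hb : b < 2 ^ m) (h : a ≠ b) : lev a b < m := by
  by_contra hm
  push Not at hm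
  apply lev_spec h
  rw [Nat.testBit_lt_two_pow (ha.trans_le (Nat.pow_le_pow_right (by norm_num) hm)),
    Nat.testBit_lt_two_pow (hb.trans_le (Nat.pow_le_pow_right (by norm_num) hm))]

theorem lev_eq_of_lt {a b c : ℕ} (hab : a ≠ b) (h : lev a b < lev b c) : lev a c = lev a b := by
  have h1 : b.testBit (lev a b) = c.testBit (lev a b) := lev_min h
  have h2 : a.testBit (lev a b) ≠ c.testBit (lev a b) := by rw [← h1]; exact lev_spec hab
  apply le_antisymm (lev_le h2)
  by_contra hlt
  push Not at hlt
  have hac : a ≠ c := fun h => h2 (by rw [h])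
  apply lev_spec hac
  rw [lev_min hlt, lev_min (hlt.trans h)]

theorem lev_lt_of_eq {a b c : ℕ} (hab : a ≠ b) (hbc : b ≠ c) (hac : a ≠ c)
    (h : lev a b = lev b c) : lev a b < lev a c := by
  by_contra hle
  push Not at hle
  have h3 := lev_spec hac
  rcases lt_or_eq_of_le hle with hlt | heq
  · apply h3
    rw [lev_min hlt, lev_min (hlt.trans_eq h)]
  · have h1 := lev_spec hab
    have h2 := lev_spec hbc
    rw [← h] at h2
    rw [heq] at h3
    revert h1 h2 h3
    cases a.testBit (lev a b) <;> cases b.testBit (lev a b) <;> cases c.testBit (lev a b) <;> simp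

/-! ### The order -/

/-- Twisted digit sequences. -/
def tw (χ : ℕ → ℕ → Bool) (p b : ℕ) : Lex (ℕ → Bool) := toLex (fun q => xor (b.testBit q) (χ p q))

theorem tw_injective (χ : ℕ → ℕ → Bool) (p : ℕ) {a b : ℕ} (h : tw χ p a = tw χ p b) : a = b := by
  apply Nat.eq_of_testBit_eq
  intro q
  have := congrFun (toLex.injective h) q
  simpa using this

theorem tw_lt_def (χ : ℕ → ℕ → Bool) (p b c : ℕ) :
    tw χ p b < tw χ p c ↔ ∃ q, (∀ j, j < q → (xor (b.testBit j) (χ p j)) =
      (xor (c.testBit j) (χ p j))) ∧ (xor (b.testBit q) (χ p q)) < (xor (c.testBit q) (χ p q)) :=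
  Iff.rfl

theorem tw_lt_iff (χ : ℕ → ℕ → Bool) (p : ℕ) {b c : ℕ} (h : b ≠ c) :
    tw χ p b < tw χ p c ↔ b.testBit (lev b c) = χ p (lev b c) := by
  have hsp := lev_spec h
  rw [tw_lt_def]
  constructor
  · rintro ⟨q, hq1, hq2⟩
    have hq : q = lev b c := by
      apply le_antisymm
      · by_contra hlt
        push Not at hlt
        have := hq1 _ hlt
        apply hsp
        simpa using this
      · apply lev_le
        intro heq
        rw [heq] at hq2
        exact lt_irrefl _ hq2
    subst hq
    revert hq2 hsp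
    cases b.testBit (lev b c) <;> cases c.testBit (lev b c) <;> cases χ p (lev b c) <;> simp
  · intro heq
    refine ⟨lev b c, ?_, ?_⟩
    · intro j hj
      rw [lev_min hj]
    · revert heq hsp
      cases b.testBit (lev b c) <;> cases c.testBit (lev b c) <;> cases χ p (lev b c) <;> simp

/-- The key of the edge `{a, b}`. -/
noncomputable def key (χ : ℕ → ℕ → Bool) (a b : ℕ) :
    ℕ ×ₗ (Lex (ℕ → Bool) ×ₗ Lex (ℕ → Bool)) :=
  if a.testBit (lev a b) then toLex (lev a b, toLex (tw χ (lev a b) b, tw χ (lev a b) a))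
  else toLex (lev a b, toLex (tw χ (lev a b) a, tw χ (lev a b) b))

theorem key_comm (χ : ℕ → ℕ → Bool) (a b : ℕ) : key χ a b = key χ b a := by
  by_cases h : a = b
  · rw [h]
  · have hsp := lev_spec h
    unfold key
    rw [lev_comm b a]
    revert hsp
    cases h1 : a.testBit (lev a b) <;> cases h2 : b.testBit (lev a b) <;> simp

theorem key_fst (χ : ℕ → ℕ → Bool) (a b : ℕ) : (ofLex (key χ a b)).1 = lev a b := by
  unfold key
  split_ifs <;> rfl

theorem key_lt_of_lev_lt (χ : ℕ → ℕ → Bool) {a b c d : ℕ} (h : lev a b < lev c d) :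
    key χ a b < key χ c d := by
  rw [Prod.Lex.lt_iff]
  left
  rw [key_fst, key_fst]
  exact h

theorem key_inj (χ : ℕ → ℕ → Bool) {a b c d : ℕ} (hab : a ≠ b) (hcd : c ≠ d)
    (h : key χ a b = key χ c d) : (a = c ∧ b = d) ∨ (a = d ∧ b = c) := by
  have hl : lev a b = lev c d := by rw [← key_fst χ, h, key_fst]
  have h1 := lev_spec hab
  have h2 := lev_spec hcd
  unfold key at h
  rw [← hl] at h h2
  split_ifs at h with h3 h4 h4 <;>
  · have h5 := toLex.injective h
    rw [Prod.mk.injEq] at h5
    have h6 := toLex.injective h5.2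
    rw [Prod.mk.injEq] at h6
    have h7 := tw_injective _ _ h6.1
    have h8 := tw_injective _ _ h6.2
    first
      | exact Or.inl ⟨h8, h7⟩
      | exact Or.inl ⟨h7, h8⟩
      | exact Or.inr ⟨h8, h7⟩
      | exact Or.inr ⟨h7, h8⟩

/-- Comparison of two edges with a common endpoint and of the same level. -/
theorem key_lt_iff (χ : ℕ → ℕ → Bool) {a b c : ℕ} (hab : a ≠ b) (hac : a ≠ c) (hbc : b ≠ c)
    (h : lev a b = lev a c) :
    key χ a b < key χ a c ↔ b.testBit (lev b c) = χ (lev a b) (lev b c) := by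
  rw [← tw_lt_iff χ _ hbc]
  have h1 := lev_spec hab
  have h2 := lev_spec hac
  unfold key
  rw [← h]
  by_cases h3 : a.testBit (lev a b) = true
  · rw [if_pos h3, if_pos h3]
    rw [Prod.Lex.toLex_lt_toLex, Prod.Lex.toLex_lt_toLex]
    constructor
    · rintro (h4 | ⟨-, h4 | ⟨-, h4⟩⟩)
      · exact absurd h4 (lt_irrefl _)
      · exact h4
      · exact absurd h4 (lt_irrefl _)
    · intro h4
      exact Or.inr ⟨rfl, Or.inl h4⟩
  · rw [if_neg h3, if_neg h3]
    rw [Prod.Lex.toLex_lt_toLex, Prod.Lex.toLex_lt_toLex]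
    constructor
    · rintro (h4 | ⟨-, h4 | ⟨-, h4⟩⟩)
      · exact absurd h4 (lt_irrefl _)
      · exact absurd h4 (lt_irrefl _)
      · exact h4
    · intro h4
      exact Or.inr ⟨rfl, Or.inr ⟨rfl, h4⟩⟩

/-- A canonical copy in the special order yields an end-homogeneous set of levels. -/
theorem lower_core (χ : ℕ → ℕ → Bool) (t m : ℕ) (ht : 3 ≤ t) (φ : Fin (t + 1) → ℕ)
    (hinj : Function.Injective φ) (hm : ∀ i, φ i < 2 ^ m)
    (hc : (∀ i j k l : Fin (t + 1), i < j → k < l →
        (key χ (φ i) (φ j) < key χ (φ k) (φ l) ↔ lexR i j k l)) ∨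
      (∀ i j k l : Fin (t + 1), i < j → k < l →
        (key χ (φ i) (φ j) < key χ (φ k) (φ l) ↔ maxLexR i j k l)) ∨
      (∀ i j k l : Fin (t + 1), i < j → k < l →
        (key χ (φ i) (φ j) < key χ (φ k) (φ l) ↔ lexR k l i j)) ∨
      (∀ i j k l : Fin (t + 1), i < j → k < l →
        (key χ (φ i) (φ j) < key χ (φ k) (φ l) ↔ maxLexR k l i j))) :
    ∃ p : Fin t → ℕ, StrictMono p ∧ (∀ i, p i < m) ∧
      ∃ s : Fin t → Bool, ∀ i j, i < j → χ (p i) (p j) = s j := by
  have hne : ∀ {i j : Fin (t + 1)}, i < j → φ i ≠ φ j := fun h h' => h.ne (hinj h')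
  -- the star-first types
  have star : (∀ i j k l : Fin (t + 1), i < j → k < l → i < k →
      key χ (φ i) (φ j) < key χ (φ k) (φ l)) →
      (∀ i j : Fin (t + 1), i < j → j < Fin.last t →
        lev (φ i) (φ j) = lev (φ i) (φ (Fin.last t)) ∧
        lev (φ i) (φ (Fin.last t)) < lev (φ j) (φ (Fin.last t))) := by
    intro h i j hij hj
    have h1 : lev (φ i) (φ j) ≤ lev (φ j) (φ (Fin.last t)) := by
      by_contra hlt
      push Not at hlt
      exact absurd (h i j j (Fin.last t) hij hj hij) (not_lt.2 (key_lt_of_lev_lt χ hlt).le)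
    have h2 : lev (φ i) (φ (Fin.last t)) ≤ lev (φ j) (φ (Fin.last t)) := by
      by_contra hlt
      push Not at hlt
      exact absurd (h i (Fin.last t) j (Fin.last t) (hij.trans hj) hj hij)
        (not_lt.2 (key_lt_of_lev_lt χ hlt).le)
    have h3 : lev (φ i) (φ j) < lev (φ j) (φ (Fin.last t)) := by
      rcases lt_or_eq_of_le h1 with h3 | h3
      · exact h3
      · have := lev_lt_of_eq (hne hij) (hne hj) (hne (hij.trans hj)) h3
        omega
    have h4 := lev_eq_of_lt (hne hij) h3
    exact ⟨h4.symm, by omega⟩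
  -- the inverse types are impossible
  have anti : ¬ (∀ i j k l : Fin (t + 1), i < j → k < l → k < i →
      key χ (φ i) (φ j) < key χ (φ k) (φ l)) := by
    intro h
    obtain ⟨a, b, c, d, hab, hbc, hcd⟩ : ∃ a b c d : Fin (t + 1), a < b ∧ b < c ∧ c < d := by
      refine ⟨⟨0, by omega⟩, ⟨1, by omega⟩, ⟨2, by omega⟩, ⟨3, by omega⟩, ?_, ?_, ?_⟩ <;>
      · rw [Fin.lt_def]
        simp
    have hle : ∀ i j k l : Fin (t + 1), i < j → k < l → k < i →
        lev (φ i) (φ j) ≤ lev (φ k) (φ l) := by
      intro i j k l h1 h2 h3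
      by_contra hlt
      push Not at hlt
      exact absurd (h i j k l h1 h2 h3) (not_lt.2 (key_lt_of_lev_lt χ hlt).le)
    have hbd := hbc.trans hcd
    have hac := hab.trans hbc
    have had := hac.trans hcd
    have e1 := hle c d b c hcd hbc hbc
    have e2 := hle c d b d hcd hbd hbc
    have e3 := hle b c a c hbc hac hab
    have e4 := hle b c a d hbc had hab
    have e5 := hle b d a c hbd hac hab
    have e6 := hle b d a d hbd had hab
    -- one of the levels at `b` is strictly larger than that of `{c, d}`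
    have e7 : lev (φ c) (φ d) < lev (φ b) (φ c) ∨ lev (φ c) (φ d) < lev (φ b) (φ d) := by
      rcases lt_or_eq_of_le e1 with e | e
      · exact Or.inl e
      · right
        have := lev_lt_of_eq (hne hbc) (hne hcd) (hne hbd) e.symm
        omega
    have e8 : lev (φ c) (φ d) < lev (φ a) (φ c) := by rcases e7 with e | e <;> omega
    have e9 : lev (φ c) (φ d) < lev (φ a) (φ d) := by rcases e7 with e | e <;> omega
    have e10 : lev (φ d) (φ a) = lev (φ d) (φ c) :=
      lev_eq_of_lt (hne hcd).symm (by rw [lev_comm (φ d), lev_comm (φ c) (φ a)]; exact e8)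
    rw [lev_comm (φ d) (φ a), lev_comm (φ d) (φ c)] at e10
    omega
  have fin : ∀ (b0 : Bool), (∀ i j : Fin (t + 1), i < j → j < Fin.last t →
        lev (φ i) (φ j) = lev (φ i) (φ (Fin.last t)) ∧
        lev (φ i) (φ (Fin.last t)) < lev (φ j) (φ (Fin.last t))) →
      (∀ i j : Fin (t + 1), i < j → j < Fin.last t →
        (key χ (φ i) (φ j) < key χ (φ i) (φ (Fin.last t)) ↔ b0 = true)) →
      ∃ p : Fin t → ℕ, StrictMono p ∧ (∀ i, p i < m) ∧
        ∃ s : Fin t → Bool, ∀ i j, i < j → χ (p i) (p j) = s j := by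
    intro b0 h1 h2
    refine ⟨fun i => lev (φ i.castSucc) (φ (Fin.last t)), ?_, ?_, ?_⟩
    · intro i j hij
      exact (h1 i.castSucc j.castSucc (by simpa using hij) (Fin.castSucc_lt_last j)).2
    · intro i
      exact lev_lt (hm _) (hm _) (hne (Fin.castSucc_lt_last i))
    · refine ⟨fun j => if b0 then (φ j.castSucc).testBit (lev (φ j.castSucc) (φ (Fin.last t)))
        else !(φ j.castSucc).testBit (lev (φ j.castSucc) (φ (Fin.last t))), ?_⟩
      intro i j hij
      have hij' : i.castSucc < j.castSucc := by simpa using hij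
      have hj := Fin.castSucc_lt_last j
      obtain ⟨h3, h4⟩ := h1 i.castSucc j.castSucc hij' hj
      have h5 := h2 i.castSucc j.castSucc hij' hj
      rw [key_lt_iff χ (hne hij') (hne (hij'.trans hj)) (hne hj) h3, h3] at h5
      simp only
      cases b0 <;>
      cases h6 : (φ j.castSucc).testBit (lev (φ j.castSucc) (φ (Fin.last t))) <;>
      cases h7 : χ (lev (φ i.castSucc) (φ (Fin.last t))) (lev (φ j.castSucc) (φ (Fin.last t))) <;>
      simp_all
  rcases hc with hc | hc | hc | hc
  · refine fin true (star ?_) ?_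
    · intro i j k l hij hkl hik
      exact (hc i j k l hij hkl).2 (Or.inl hik)
    · intro i j hij hj
      rw [hc i j i (Fin.last t) hij (hij.trans hj)]
      simp [lexR, hj]
  · refine fin false (star ?_) ?_
    · intro i j k l hij hkl hik
      exact (hc i j k l hij hkl).2 (Or.inl hik)
    · intro i j hij hj
      rw [hc i j i (Fin.last t) hij (hij.trans hj)]
      simp [maxLexR, hj.le]
  · exact absurd (fun i j k l hij hkl hki => (hc i j k l hij hkl).2 (Or.inl hki)) anti
  · exact absurd (fun i j k l hij hkl hki => (hc i j k l hij hkl).2 (Or.inl hki)) anti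

/-! ### Counting -/

theorem card_pairs (t : ℕ) :
    (Finset.univ.filter (fun x : Fin t × Fin t => x.1 < x.2)).card = t * (t - 1) / 2 := by
  rw [Finset.card_filter, ← Finset.univ_product_univ, Finset.sum_product_right]
  have : ∀ j : Fin t, (∑ i : Fin t, if i < j then 1 else 0) = (j : ℕ) := by
    intro j
    rw [← Finset.card_filter]
    have : (Finset.univ.filter (fun i : Fin t => i < j)) = Finset.Iio j := by ext; simp
    rw [this, Fin.card_Iio]
  simp only [this]
  rw [Fin.sum_univ_eq_sum_range (fun x => x) t, Finset.sum_range_id]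

theorem exists_chi (t m : ℕ) (h : (2 * m) ^ t < 2 ^ (t * (t - 1) / 2)) :
    ∃ χ : ℕ → ℕ → Bool, ∀ p : Fin t → ℕ, StrictMono p → (∀ i, p i < m) →
      ∀ s : Fin t → Bool, ∃ i j, i < j ∧ χ (p i) (p j) ≠ s j := by
  classical
  by_contra hcon
  push Not at hcon
  -- the bad sets
  let Bad : (Fin t → Fin m) × (Fin t → Bool) → Finset (Fin m × Fin m → Bool) := fun ps =>
    if Function.Injective ps.1 then
      Finset.univ.filter (fun χ => ∀ i j : Fin t, i < j → χ (ps.1 i, ps.1 j) = ps.2 j)
    else ∅
  have hcover : (Finset.univ : Finset (Fin m × Fin m → Bool)) ⊆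
      (Finset.univ : Finset ((Fin t → Fin m) × (Fin t → Bool))).biUnion Bad := by
    intro χ _
    obtain ⟨p, hp, hpm, s, hs⟩ := hcon
      (fun a b => if h : a < m ∧ b < m then χ (⟨a, h.1⟩, ⟨b, h.2⟩) else false)
    rw [Finset.mem_biUnion]
    refine ⟨(fun i => ⟨p i, hpm i⟩, s), Finset.mem_univ _, ?_⟩
    have hinj : Function.Injective (fun i => (⟨p i, hpm i⟩ : Fin m)) := by
      intro i j hij
      exact hp.injective (by simpa using hij)
    simp only [Bad]
    rw [if_pos hinj, Finset.mem_filter]
    refine ⟨Finset.mem_univ _, ?_⟩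
    intro i j hij
    have := hs i j hij
    rw [dif_pos ⟨hpm i, hpm j⟩] at this
    exact this
  have hbad : ∀ ps, (Bad ps).card * 2 ^ (t * (t - 1) / 2) ≤ 2 ^ (m * m) := by
    intro ps
    by_cases hinj : Function.Injective ps.1
    · simp only [Bad]
      rw [if_pos hinj]
      let A : Finset (Fin m × Fin m) :=
        (Finset.univ.filter (fun x : Fin t × Fin t => x.1 < x.2)).image
          (fun x => (ps.1 x.1, ps.1 x.2))
      have hA : A.card = t * (t - 1) / 2 := by
        rw [Finset.card_image_of_injective, card_pairs]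
        intro x y hxy
        simp only [Prod.mk.injEq] at hxy
        exact Prod.ext (hinj hxy.1) (hinj hxy.2)
      have hsub : (Finset.univ.filter
          (fun χ : Fin m × Fin m → Bool => ∀ i j : Fin t, i < j → χ (ps.1 i, ps.1 j) = ps.2 j)) ⊆
          Fintype.piFinset (fun x : Fin m × Fin m =>
            if x ∈ A then
              ((Finset.univ.filter (fun y : Bool => ∀ j, ps.1 j = x.2 → y = ps.2 j)))
            else Finset.univ) := by
        intro χ hχ
        rw [Finset.mem_filter] at hχ
        rw [Fintype.mem_piFinset]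
        intro x
        by_cases hx : x ∈ A
        · rw [if_pos hx]
          simp only [A, Finset.mem_image, Finset.mem_filter, Finset.mem_univ, true_and] at hx
          obtain ⟨⟨i, j⟩, hij, rfl⟩ := hx
          simp only [Finset.mem_filter, Finset.mem_univ, true_and]
          intro j' hj'
          have : j' = j := hinj hj'
          subst this
          exact hχ.2 i j' hij
        · rw [if_neg hx]; exact Finset.mem_univ _
      have hcard : (Fintype.piFinset (fun x : Fin m × Fin m =>
            if x ∈ A then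
              ((Finset.univ.filter (fun y : Bool => ∀ j, ps.1 j = x.2 → y = ps.2 j)))
            else Finset.univ)).card ≤ ∏ x : Fin m × Fin m, (if x ∈ A then 1 else 2) := by
        rw [Fintype.card_piFinset]
        apply Finset.prod_le_prod'
        intro x _
        by_cases hx : x ∈ A
        · rw [if_pos hx, if_pos hx]
          simp only [A, Finset.mem_image, Finset.mem_filter, Finset.mem_univ, true_and] at hx
          obtain ⟨⟨i, j⟩, hij, rfl⟩ := hx
          rw [Finset.card_le_one]
          intro y hy z hz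
          rw [Finset.mem_filter] at hy hz
          rw [hy.2 j rfl, hz.2 j rfl]
        · rw [if_neg hx, if_neg hx]; simp
      have hprod : (∏ x : Fin m × Fin m, (if x ∈ A then 1 else 2)) * 2 ^ A.card = 2 ^ (m * m) := by
        rw [Finset.prod_ite, Finset.prod_const_one, one_mul, Finset.prod_const, ← pow_add]
        congr 1
        have h1 := Finset.card_filter_add_card_filter_not
          (s := (Finset.univ : Finset (Fin m × Fin m))) (fun x => x ∈ A)
        have h2 : (Finset.univ.filter (fun x : Fin m × Fin m => x ∈ A)) = A := by ext; simp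
        rw [h2, Finset.card_univ, Fintype.card_prod, Fintype.card_fin] at h1
        omega
      calc _ ≤ (∏ x : Fin m × Fin m, (if x ∈ A then 1 else 2)) * 2 ^ (t * (t - 1) / 2) :=
            Nat.mul_le_mul_right _ ((Finset.card_le_card hsub).trans hcard)
        _ = 2 ^ (m * m) := by rw [← hA]; exact hprod
    · simp only [Bad]
      rw [if_neg hinj]
      simp
  have htot : 2 ^ (m * m) * 2 ^ (t * (t - 1) / 2) ≤ (2 * m) ^ t * 2 ^ (m * m) := by
    calc 2 ^ (m * m) * 2 ^ (t * (t - 1) / 2)
        = (Finset.univ : Finset (Fin m × Fin m → Bool)).card * 2 ^ (t * (t - 1) / 2) := by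
          rw [Finset.card_univ]; simp
      _ ≤ ((Finset.univ : Finset ((Fin t → Fin m) × (Fin t → Bool))).biUnion Bad).card *
            2 ^ (t * (t - 1) / 2) := Nat.mul_le_mul_right _ (Finset.card_le_card hcover)
      _ ≤ (∑ ps : (Fin t → Fin m) × (Fin t → Bool), (Bad ps).card) * 2 ^ (t * (t - 1) / 2) :=
          Nat.mul_le_mul_right _ Finset.card_biUnion_le
      _ = ∑ ps : (Fin t → Fin m) × (Fin t → Bool), (Bad ps).card * 2 ^ (t * (t - 1) / 2) :=
          Finset.sum_mul _ _ _
      _ ≤ ∑ _ps : (Fin t → Fin m) × (Fin t → Bool), 2 ^ (m * m) :=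
          Finset.sum_le_sum fun ps _ => hbad ps
      _ = (2 * m) ^ t * 2 ^ (m * m) := by
          rw [Finset.sum_const, Finset.card_univ]
          simp [mul_pow]
          ring
  have hpos : 0 < 2 ^ (m * m) := by positivity
  have : 2 ^ (t * (t - 1) / 2) ≤ (2 * m) ^ t := by
    rw [mul_comm] at htot
    exact Nat.le_of_mul_le_mul_right htot hpos
  omega

end Pool.Agent.Helper25.EdgeOrd
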