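import Mathlib
import Pool.Agent.Helper25.StageD
import Pool.Agent.Helper25.StageL
import Pool.Agent.Helper25.CanonicalEdgeOrderDefs

set_option autoImplicit false

namespace Pool.Agent.Helper25.CanonicalEdgeOrder

open Pool.Agent.Helper25.EdgeOrd

/-- The upper bound: every edge-ordering of a large complete graph has a canonical copy. -/
theorem upper (n : ℕ) (hn : 1 ≤ n) (N : ℕ) (hN : 2 ^ 2 ^ (48 * (n - 1)) ≤ N)
    (r : LinearOrder (Edge N)) : HasCanonicalCopy r n := by
  classical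
  -- the rank of an edge
  let rk : Edge N → ℕ := fun e => (Finset.univ.filter (fun e' : Edge N => r.lt e' e)).card
  have hrk : ∀ e e' : Edge N, r.lt e e' → rk e < rk e' := by
    intro e e' h
    apply Finset.card_lt_card
    rw [Finset.ssubset_iff_of_subset]
    · refine ⟨e, ?_, ?_⟩
      · simpa using h
      · simp only [Finset.mem_filter, Finset.mem_univ, true_and]
        exact @lt_irrefl _ r.toPreorder e
    · intro x hx
      simp only [Finset.mem_filter, Finset.mem_univ, true_and] at hx ⊢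
      exact @lt_trans _ r.toPreorder _ _ _ hx h
  have hrk2 : ∀ e e' : Edge N, rk e < rk e' → r.lt e e' := by
    intro e e' h
    rcases @lt_trichotomy _ r e e' with h' | h' | h'
    · exact h'
    · rw [h'] at h; exact absurd h (lt_irrefl _)
    · exact absurd (hrk _ _ h') (not_lt.2 h.le)
  have hrkinj : ∀ e e' : Edge N, rk e = rk e' → e = e' := by
    intro e e' h
    rcases @lt_trichotomy _ r e e' with h' | h' | h'
    · have := hrk _ _ h'; omega
    · exact h'
    · have := hrk _ _ h'; omega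
  let w : Fin N → Fin N → ℤ := fun x y =>
    if h : x = y then -1 else (rk ⟨s(x, y), by rw [Sym2.mk_isDiag_iff]; exact h⟩ : ℤ)
  have hw : ∀ x y : Fin N, ∀ h : x ≠ y,
      w x y = (rk ⟨s(x, y), by rw [Sym2.mk_isDiag_iff]; exact h⟩ : ℤ) := by
    intro x y h
    simp only [w]
    rw [dif_neg h]
  have hsymm : ∀ x y, w x y = w y x := by
    intro x y
    by_cases h : x = y
    · rw [h]
    · rw [hw x y h, hw y x (Ne.symm h)]
      congr 2
      exact Subtype.ext Sym2.eq_swap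
  have hinj : ∀ a b c d, a ≠ b → c ≠ d → w a b = w c d →
      (a = c ∧ b = d) ∨ (a = d ∧ b = c) := by
    intro a b c d hab hcd h
    rw [hw a b hab, hw c d hcd] at h
    have h2 := hrkinj _ _ (by exact_mod_cast h)
    have h3 := congrArg Subtype.val h2
    simpa [Sym2.eq_iff] using h3
  obtain ⟨φ, hφ, hc⟩ := upper_general w hsymm hinj n hn (by rw [Fintype.card_fin]; exact hN)
  have key : ∀ (i j k l : Fin n) (hij : i < j) (hkl : k < l),
      (r.lt (edge ⟨φ, hφ⟩ hij) (edge ⟨φ, hφ⟩ hkl) ↔ w (φ i) (φ j) < w (φ k) (φ l)) := by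
    intro i j k l hij hkl
    have h1 : φ i ≠ φ j := fun h => hij.ne (hφ h)
    have h2 : φ k ≠ φ l := fun h => hkl.ne (hφ h)
    rw [hw _ _ h1, hw _ _ h2]
    constructor
    · intro h
      exact_mod_cast hrk _ _ h
    · intro h
      exact hrk2 _ _ (by exact_mod_cast h)
  rcases hc with hc | hc | hc | hc
  · exact ⟨⟨φ, hφ⟩, Or.inl (fun i j k l hij hkl => (key i j k l hij hkl).trans (hc i j k l hij hkl))⟩
  · exact ⟨⟨φ, hφ⟩, Or.inr (Or.inl
      (fun i j k l hij hkl => (key i j k l hij hkl).trans (hc i j k l hij hkl)))⟩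
  · exact ⟨⟨φ, hφ⟩, Or.inr (Or.inr (Or.inl
      (fun i j k l hij hkl => (key i j k l hij hkl).trans (hc i j k l hij hkl))))⟩
  · exact ⟨⟨φ, hφ⟩, Or.inr (Or.inr (Or.inr
      (fun i j k l hij hkl => (key i j k l hij hkl).trans (hc i j k l hij hkl))))⟩

/-- The lower bound: complete graphs with at most `2 ^ m` vertices, `m = 2 ^ ((n - 5) / 2)`, have an
edge-ordering without canonical copy of `K_n`. -/
theorem lower (n : ℕ) (hn : 5 ≤ n) (N : ℕ) (hN : N ≤ 2 ^ 2 ^ ((n - 5) / 2)) :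
    ∃ r : LinearOrder (Edge N), ¬ HasCanonicalCopy r n := by
  classical
  obtain ⟨t, rfl⟩ : ∃ t, n = t + 1 := ⟨n - 1, by omega⟩
  set q := (t + 1 - 5) / 2 with hq
  set m := 2 ^ q with hm
  have hcount : (2 * m) ^ t < 2 ^ (t * (t - 1) / 2) := by
    rw [hm, ← pow_succ', ← pow_mul]
    apply Nat.pow_lt_pow_right (by norm_num)
    obtain ⟨u, rfl⟩ : ∃ u, t = u + 4 := ⟨t - 4, by omega⟩
    have hq' : 2 * q ≤ u := by omega
    rw [Nat.lt_div_iff_mul_lt (by norm_num)]
    have : (u + 4 - 1) = u + 3 := by omega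
    rw [this]
    have h1 : (q + 1) * (u + 4) * 2 ≤ (u + 2) * (u + 4) := by nlinarith
    have h2 : (u + 4) * (u + 3) = (u + 2) * (u + 4) + (u + 4) := by ring
    omega
  obtain ⟨χ, hχ⟩ := exists_chi t m hcount
  let f : Sym2 (Fin N) → ℕ ×ₗ (Lex (ℕ → Bool) ×ₗ Lex (ℕ → Bool)) :=
    Sym2.lift ⟨fun a b : Fin N => key χ (a : ℕ) (b : ℕ), fun a b => key_comm χ a b⟩
  have hf : Function.Injective (fun e : Edge N => f e.1) := by
    rintro ⟨e, he⟩ ⟨e', he'⟩ h
    induction e using Sym2.ind with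
    | _ a b =>
    induction e' using Sym2.ind with
    | _ c d =>
    rw [Sym2.mk_isDiag_iff] at he he'
    have h' : key χ (a : ℕ) (b : ℕ) = key χ (c : ℕ) (d : ℕ) := h
    have h2 := key_inj χ (fun h => he (Fin.ext h)) (fun h => he' (Fin.ext h)) h'
    apply Subtype.ext
    change s(a, b) = s(c, d)
    rw [Sym2.eq_iff]
    rcases h2 with h2 | h2
    · exact Or.inl ⟨Fin.ext h2.1, Fin.ext h2.2⟩
    · exact Or.inr ⟨Fin.ext h2.1, Fin.ext h2.2⟩
  refine ⟨LinearOrder.lift' (fun e : Edge N => f e.1) hf, ?_⟩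
  rintro ⟨φ, hc⟩
  obtain ⟨p, hp, hpm, s, hs⟩ := lower_core χ t m (by omega) (fun i => (φ i : ℕ))
    (fun i j h => φ.injective (Fin.ext h)) (fun i => lt_of_lt_of_le (φ i).2 hN) (by
      rcases hc with hc | hc | hc | hc
      · exact Or.inl (fun i j k l hij hkl => hc i j k l hij hkl)
      · exact Or.inr (Or.inl (fun i j k l hij hkl => hc i j k l hij hkl))
      · exact Or.inr (Or.inr (Or.inl (fun i j k l hij hkl => hc i j k l hij hkl)))
      · exact Or.inr (Or.inr (Or.inr (fun i j k l hij hkl => hc i j k l hij hkl))))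
  obtain ⟨i, j, hij, hne⟩ := hχ p hp hpm s
  exact hne (hs i j hij)

theorem main (n : ℕ) (hn : 5 ≤ n) :
    2 ^ 2 ^ ((n - 5) / 2) < T n ∧ T n ≤ 2 ^ 2 ^ (48 * (n - 1)) := by
  have hmem : 2 ^ 2 ^ (48 * (n - 1)) ∈
      {N : ℕ | 0 < N ∧ ∀ r : LinearOrder (Edge N), HasCanonicalCopy r n} :=
    ⟨by positivity, fun r => upper n (by omega) _ le_rfl r⟩
  refine ⟨?_, Nat.sInf_le hmem⟩
  by_contra hlt
  push Not at hlt
  have hT : T n ∈ {N : ℕ | 0 < N ∧ ∀ r : LinearOrder (Edge N), HasCanonicalCopy r n} :=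
    Nat.sInf_mem ⟨_, hmem⟩
  obtain ⟨r, hr⟩ := lower n hn (T n) hlt
  exact hr (hT.2 r)

end Pool.Agent.Helper25.CanonicalEdgeOrder
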